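import Pool.Agent.H23.RDD.Targets

set_option autoImplicit false

/-!
# MP_c65535_nt, bounded degree: row KEYD of the board `rdd_modules`
-/

namespace Pool.Agent.H10.RDD

open NumberField Height Finset Polynomial Pool.Agent.H24.RD Pool.Agent.H23.RDD

/-- the height of a quotient of two conjugates -/
theorem height_bd (hHB : T_HB) (F Ω : Type) [Field F] [NumberField F]
    [Field Ω] [CharZero Ω] [Algebra F Ω] [Algebra.IsAlgebraic F Ω] (τ σ : Ω ≃ₐ[F] Ω) (β : Ω) (hβ : β ≠ 0) (g : Ω)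
    (hg : g ≠ 0) (j : ℕ) (a : F) (hj : 0 < j) (hga : g ^ j = algebraMap F Ω a) :
    absLogHeight₁ (τ β / σ β) ≤ 2 * absLogHeight₁ (β * g) := by
  have : Algebra.IsAlgebraic ℚ Ω := Algebra.IsAlgebraic.trans ℚ F Ω
  obtain ⟨-, hmul, hinv, -, htor, hconj, -⟩ := hHB Ω
  have hρ : (τ g / σ g) ^ j = 1 := by
    rw [div_pow, ← map_pow, ← map_pow, hga, AlgEquiv.commutes, AlgEquiv.commutes, div_self]
    rw [← hga]
    exact pow_ne_zero _ hg
  have hσβ : σ β ≠ 0 := fun h => hβ ((map_eq_zero σ).1 h)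
  have hσg : σ g ≠ 0 := fun h => hg ((map_eq_zero σ).1 h)
  have h1 : τ (β * g) * (σ (β * g))⁻¹ = (τ g / σ g) * (τ β / σ β) := by
    rw [map_mul, map_mul]
    field_simp
  have h2 := htor (τ g / σ g) (τ β / σ β) j hj hρ
  rw [← h2, ← h1]
  refine (hmul _ _).trans ?_
  rw [hinv]
  have h3 := hconj (τ : Ω ≃+* Ω) (β * g)
  have h4 : (τ : Ω ≃+* Ω) (β * g) = τ (β * g) := rfl
  have h5 := hconj (σ : Ω ≃+* Ω) (β * g)
  have h6 : (σ : Ω ≃+* Ω) (β * g) = σ (β * g) := rfl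
  rw [h4] at h3
  rw [h6] at h5
  rw [h3, h5]
  linarith

/-- the product formula step, in a closure of the fields -/
theorem step (hHA : T_HA) (hHB : T_HB) (hKP : T_KP) (F E M Ω : Type) [Field F] [NumberField F] [Field E]
    [NumberField E] [Field M] [NumberField M] [Field Ω] [CharZero Ω] [Algebra F E] [Algebra E M] [Algebra M Ω]
    [Algebra E Ω] [Algebra F Ω] [IsScalarTower E M Ω] [Algebra.IsAlgebraic F Ω]
    (p : ℕ) (hp : p.Prime) (T d : ℕ) (hT : 1 ≤ T) (hd : 0 < d) (S : Type) [Fintype S] (hS : Fintype.card S ≤ T)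
    (t : S → (E ≃ₐ[F] E)) (ht : ∀ v : FinitePlace E, v.1 (p : E) < 1 →
      ∃ s : S, ∀ x : E, x ≠ 0 → v.1 (t s x / x - 1) ≤ v.1 (p : E) ^ (1 / ((2 * T : ℕ) : ℝ)))
    (τ : S → (Ω ≃ₐ[F] Ω)) (hτ : ∀ s (y : E), τ s (algebraMap E Ω y) = algebraMap E Ω (t s y))
    (f : E[X]) (B : Finset Ω) (hB : B.card ≤ d) (β : Ω) (hβ : β ≠ 0) (hβB : β ∈ B)
    (hfB : f.map (algebraMap E Ω) = ∏ x ∈ B, (X - C x))
    (hcon : ∀ x ∈ B, ∃ σ : Ω ≃ₐ[F] Ω, σ β = x) (hBM : ∀ x ∈ B, ∃ y : M, algebraMap M Ω y = x)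
    (hzM : ∀ s, ∃ y : M, algebraMap M Ω y = τ s β) (g : Ω) (hg : g ≠ 0) (j : ℕ) (a : F) (hj : 0 < j)
    (hga : g ^ j = algebraMap F Ω a)
    (hh : absLogHeight₁ (β * g) < Real.log 2 / (2 * T * d * (p : ℝ) ^ (3 * T * d + 2))) :
    ∃ s, ∃ x ∈ B, (τ s β) ^ (p ^ (3 * T * d + 2)) = x ^ (p ^ (3 * T * d + 2)) := by
  classical
  have hinj : Function.Injective (algebraMap M Ω) := (algebraMap M Ω).injective
  choose b hb using fun x : B => hBM x.1 x.2
  choose z hz using hzM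
  have hb0 : ∀ x : B, b x ≠ 0 := by
    intro x h
    obtain ⟨σ, hσ⟩ := hcon x.1 x.2
    have h1 := hb x
    rw [h, map_zero, ← hσ] at h1
    exact hβ ((map_eq_zero σ).1 h1.symm)
  have hfM : f.map (algebraMap E M) = ∏ x : B, (X - C (b x)) := by
    apply Polynomial.map_injective (algebraMap M Ω) hinj
    rw [Polynomial.map_map, ← IsScalarTower.algebraMap_eq, hfB, Polynomial.map_prod, ← Finset.prod_coe_sort]
    apply Finset.prod_congr rfl
    intro x _
    rw [Polynomial.map_sub, Polynomial.map_X, Polynomial.map_C, hb]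
  have hfβ : f.eval₂ (algebraMap E Ω) β = 0 := by
    rw [← Polynomial.eval_map, hfB, Polynomial.eval_prod]
    apply Finset.prod_eq_zero hβB
    simp
  have hroot : ∀ s, aeval (z s) (f.map (((t s : E ≃+* E)) : E →+* E)) = 0 := by
    intro s
    apply hinj
    rw [map_zero, Polynomial.aeval_def, Polynomial.eval₂_map, Polynomial.hom_eval₂, hz]
    have h1 : (algebraMap M Ω).comp ((algebraMap E M).comp ((t s : E ≃+* E) : E →+* E)) =
        ((τ s : Ω ≃+* Ω) : Ω →+* Ω).comp (algebraMap E Ω) := by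
      ext y
      have h2 : algebraMap M Ω (algebraMap E M (t s y)) = algebraMap E Ω (t s y) :=
        (IsScalarTower.algebraMap_apply E M Ω _).symm
      have h3 := hτ s y
      exact h2.trans h3.symm
    rw [h1]
    have h4 := Polynomial.hom_eval₂ f (algebraMap E Ω) ((τ s : Ω ≃+* Ω) : Ω →+* Ω) β
    rw [hfβ, map_zero] at h4
    exact h4.symm
  have hkp := hKP E M p hp T d hT hd S hS (fun s => (t s : E ≃+* E)) ht f B
    (by rw [Fintype.card_coe]; exact hB) b hb0 hfM z hroot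
  rcases hkp with ⟨s, x, h1⟩ | h1
  · refine ⟨s, x.1, x.2, ?_⟩
    have h2 := congrArg (algebraMap M Ω) h1
    rw [map_pow, map_pow, hz, hb] at h2
    exact h2
  · exfalso
    have : Algebra.IsAlgebraic ℚ Ω := Algebra.IsAlgebraic.trans ℚ F Ω
    obtain ⟨hnn, -, -, hpw, -, -, -⟩ := hHB Ω
    have hdM : 0 < (Module.finrank ℚ M : ℝ) := by exact_mod_cast Module.finrank_pos
    have hlh : ∀ x : M, logHeight₁ x = (Module.finrank ℚ M : ℝ) * absLogHeight₁ (algebraMap M Ω x) := by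
      intro x
      rw [hHA M Ω x]
      field_simp
    have hp0 : (0 : ℝ) < p := by exact_mod_cast hp.pos
    have hterm : ∀ (s : S) (x : B), logHeight₁ ((z s / b x) ^ (p ^ (3 * T * d + 2))) ≤
        (Module.finrank ℚ M : ℝ) * ((p : ℝ) ^ (3 * T * d + 2) * (2 * absLogHeight₁ (β * g))) := by
      intro s x
      rw [hlh, map_pow, hpw, map_div₀, hz, hb]
      apply mul_le_mul_of_nonneg_left _ hdM.le
      rw [Nat.cast_pow]
      apply mul_le_mul_of_nonneg_left _ (by positivity)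
      obtain ⟨σ, hσ⟩ := hcon x.1 x.2
      rw [← hσ]
      exact height_bd hHB F Ω (τ s) σ β hβ g hg j a hj hga
    have hh0 := hnn (β * g)
    set h := absLogHeight₁ (β * g) with hhd
    have hD : (0 : ℝ) < 2 * T * d * (p : ℝ) ^ (3 * T * d + 2) := by
      have hT' : (0 : ℝ) < T := by exact_mod_cast hT
      have hd' : (0 : ℝ) < d := by exact_mod_cast hd
      positivity
    have hsum : ∑ s, ∑ x : B, logHeight₁ ((z s / b x) ^ (p ^ (3 * T * d + 2))) ≤
        (Fintype.card S : ℝ) * ((B.card : ℝ) * ((Module.finrank ℚ M : ℝ) *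
          ((p : ℝ) ^ (3 * T * d + 2) * (2 * h)))) := by
      refine (Finset.sum_le_sum fun s _ => Finset.sum_le_sum fun x _ => hterm s x).trans (le_of_eq ?_)
      rw [Finset.sum_const, Finset.sum_const, nsmul_eq_mul, nsmul_eq_mul, Finset.card_univ, Finset.card_univ,
        Fintype.card_coe]
    have hX : 0 ≤ (Module.finrank ℚ M : ℝ) * ((p : ℝ) ^ (3 * T * d + 2) * (2 * h)) := by positivity
    have e1 : (Fintype.card S : ℝ) ≤ T := by exact_mod_cast hS
    have e2 : (B.card : ℝ) ≤ d := by exact_mod_cast hB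
    have hsum2 : (Fintype.card S : ℝ) * ((B.card : ℝ) * ((Module.finrank ℚ M : ℝ) *
          ((p : ℝ) ^ (3 * T * d + 2) * (2 * h)))) ≤
        T * (d * ((Module.finrank ℚ M : ℝ) * ((p : ℝ) ^ (3 * T * d + 2) * (2 * h)))) := by
      apply mul_le_mul e1 (mul_le_mul_of_nonneg_right e2 hX) (by positivity) (by positivity)
    have h3 := (h1.trans hsum).trans hsum2
    have h4 : T * (d * ((Module.finrank ℚ M : ℝ) * ((p : ℝ) ^ (3 * T * d + 2) * (2 * h)))) =
        (Module.finrank ℚ M : ℝ) * (h * (2 * T * d * (p : ℝ) ^ (3 * T * d + 2))) := by ring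
    rw [h4] at h3
    have h5 := le_of_mul_le_mul_left h3 hdM
    rw [lt_div_iff₀ hD] at hh
    linarith

theorem pf_KEYD : T_HA → T_HB → T_LVB → T_WE → T_KP → T_FT → T_KEYD := by
  classical
  intro hHA hHB hLVB hWE hKP hFT F Ω _ _ _ _ _ _ _ p hp r γ hγ
  obtain ⟨C, hC⟩ := hWE F p hp r γ hγ
  refine ⟨C, fun R d hd => ?_⟩
  obtain ⟨T, n0, hT, hTn⟩ := hC R
  refine ⟨Real.log 2 / (2 * T * d * (p : ℝ) ^ (3 * T * d + 2)), 3 * T * d + 2, n0, ?_, ?_⟩
  · have : (0 : ℝ) < p := by exact_mod_cast hp.pos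
    have h2 : (0 : ℝ) < T := by exact_mod_cast hT
    have h3 : (0 : ℝ) < d := by exact_mod_cast hd
    have h4 : 0 < Real.log 2 := Real.log_pos one_lt_two
    positivity
  intro n m n1 n2 N' K' hL β hβ hcj g hg hga hh
  have h6 := hL.h6
  have h7 := hL.h7
  have hN0 : N' ≠ 0 := by
    rintro rfl
    exact h6 (dvd_zero p)
  have hK0 : K' ≠ 0 := by
    rintro rfl
    exact hN0 (Nat.eq_zero_of_zero_dvd h7)
  have hlvb := hLVB F Ω r γ hγ (p ^ n * N') (p ^ m * K')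
    (Nat.pos_of_ne_zero (mul_ne_zero (pow_ne_zero _ hp.ne_zero) hN0))
    (Nat.pos_of_ne_zero (mul_ne_zero (pow_ne_zero _ hp.ne_zero) hK0))
  set E := Lv F Ω γ (p ^ n * N') (p ^ m * K') with hE
  obtain ⟨hfd, hgal, hζ, hθ, hadj, -⟩ := hlvb
  obtain ⟨M, f, s, hM, hEM, hs, hβs, hsx, -, hfs, hMst⟩ := hFT F Ω E hfd d β hβ hcj
  have : IsAlgClosure F Ω := ⟨inferInstance, inferInstance⟩
  have : Normal F Ω := IsAlgClosure.normal F Ω
  have : FiniteDimensional ℚ E := FiniteDimensional.trans ℚ F _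
  have : NumberField E := {}
  have : FiniteDimensional ℚ M := FiniteDimensional.trans ℚ F _
  have : NumberField M := {}
  obtain ⟨hcard, hwild⟩ := hTn E n m n1 n2 N' K' hL hζ hθ hadj
  let _ : Algebra E M := (IntermediateField.inclusion hEM).toRingHom.toAlgebra
  have : IsScalarTower E M Ω := IsScalarTower.of_algebraMap_eq fun x => rfl
  let S := {t : E ≃ₐ[F] E // t ∈ VV F E γ p n1 K' ∧ ∃ ξ : E, ξ ^ (p ^ n2) = 1 ∧ t ξ ≠ ξ}
  have : Fintype S := Fintype.ofFinite S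
  have hScard : Fintype.card S ≤ T := by
    refine le_trans ?_ hcard
    rw [← Nat.card_eq_fintype_card]
    exact Nat.card_le_card_of_injective (fun t : S => (⟨t.1, t.2.1⟩ : VV F E γ p n1 K')) (by
      intro t t' h
      exact Subtype.ext (congrArg (fun x : VV F E γ p n1 K' => x.1) h))
  obtain ⟨j, a, hj, hga⟩ := hga
  obtain ⟨t, x, hx, hpow⟩ := step hHA hHB hKP F E M Ω p hp T d hT hd S hScard (fun t => t.1) (by
      intro v hv
      obtain ⟨t, h1, h2, h3⟩ := hwild v hv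
      exact ⟨⟨t, h1, h2⟩, h3⟩)
    (fun t => t.1.liftNormal Ω) (fun t y => t.1.liftNormal_commutes Ω y) f s hs β hβ hβs hfs
    (fun x hx => by
      obtain ⟨-, -, σ, -, h⟩ := hsx x hx
      exact ⟨σ, h⟩)
    (fun x hx => ⟨⟨x, (hsx x hx).1⟩, rfl⟩)
    (fun t => ⟨⟨t.1.liftNormal Ω β, hMst _ β (hsx β hβs).1⟩, rfl⟩) g hg j a hj hga hh
  obtain ⟨-, -, σ, hσE, hσ⟩ := hsx x hx
  refine ⟨(t.1.liftNormal Ω).trans σ.symm, t.1, t.2.1, t.2.2, ?_, ?_⟩
  · intro y
    have h1 : t.1.liftNormal Ω (y : Ω) = (t.1 y : Ω) := t.1.liftNormal_commutes Ω y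
    change σ.symm (t.1.liftNormal Ω (y : Ω)) = (t.1 y : Ω)
    rw [h1, AlgEquiv.symm_apply_eq]
    exact (hσE _ (t.1 y).2).symm
  · change (σ.symm (t.1.liftNormal Ω β)) ^ _ = _
    rw [← map_pow, hpow, AlgEquiv.symm_apply_eq, map_pow, hσ]

end Pool.Agent.H10.RDD
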